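import Mathlib

open Finset

namespace Pool.Agent.Results.MP_5c57f5_nt.Fails

def Cg (p m : ℕ) (u v : ℚ) : Prop := ∃ c : ℚ, ¬ p ∣ c.den ∧ u - v = (p : ℚ) ^ m * c

def S (p : ℕ) : ℚ :=
  ∑ k ∈ range p, ((2 * k).choose k : ℚ) ^ 2 * ((3 * k).choose k : ℚ) / (-8640) ^ k

theorem result : ¬ ∀ p : ℕ, p.Prime → 3 < p →
    (∀ x y : ℤ, p % 3 = 1 → (p : ℤ) = x ^ 2 + 3 * y ^ 2 →
      (Cg p 1 (10 ^ ((p - 1) / 3)) 1 → Cg p 2 (S p) (4 * x ^ 2 - 2 * p)) ∧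
      (Cg p 1 (10 ^ ((p - 1) / 3)) (1 / 2 * (-1 - x / y)) →
        Cg p 2 (S p) (p - 2 * x ^ 2 + 6 * x * y)) ∧
      (Cg p 1 (10 ^ ((p - 1) / 3)) (1 / 2 * (-1 + x / y)) →
        Cg p 2 (S p) (p - 2 * x ^ 2 - 6 * x * y))) ∧
    (p % 3 = 2 → Cg p 2 (S p) 0) := by
  intro h
  obtain ⟨c, h1, h2⟩ := (h 5 (by norm_num) (by norm_num)).2 rfl
  have h3 : c = S 5 / 25 := by
    rw [sub_zero] at h2
    rw [h2]
    norm_num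
  rw [h3] at h1
  revert h1
  unfold S
  decide +kernel

end Pool.Agent.Results.MP_5c57f5_nt.Fails
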